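import Pool.Agent.Y698.Uc

/-!
# The index of the points with nonsingular reduction, any odd residue characteristic
-/

set_option autoImplicit false
set_option linter.unusedSectionVars false

namespace Pool.Agent.N818.TD

open WeierstrassCurve WithZero Pool.Agent.Y698

section

variable {L : Type} [Field L] {Γ : Type} [LinearOrderedCommGroupWithZero Γ] {v : Valuation L Γ}

/-- the valuations of the abscissas of three points on a line -/
lemma val_key (h2 : v (2 : L) = 1) {A B x₁ x₂ x₃ l n : L} (hA : v A < 1) (hB : v B < 1)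
    (r0 : x₁ + x₂ + x₃ = l ^ 2 - A) (r1 : x₁ * x₂ + x₃ * (x₁ + x₂) = B - 2 * l * n)
    (r2 : x₁ * x₂ * x₃ = n ^ 2) (h₁ : 1 ≤ v x₁) (h₂ : 1 ≤ v x₂) : 1 ≤ v x₃ := by
  by_contra h3
  push Not at h3
  obtain ⟨m, hm⟩ : ∃ m, m = max (v x₁) (v x₂) := ⟨_, rfl⟩
  have hm1 : 1 ≤ m := hm ▸ h₁.trans (le_max_left _ _)
  obtain ⟨M, hM⟩ : ∃ M, M = v x₁ * v x₂ := ⟨_, rfl⟩
  have hmM : m ≤ M := by
    rw [hm, hM]
    exact max_le (le_mul_of_one_le_right' h₂) (le_mul_of_one_le_left' h₁)
  have hM1 : 1 ≤ M := hm1.trans hmM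
  have hm0 : 0 < m := zero_lt_one.trans_le hm1
  have hM0 : 0 < M := zero_lt_one.trans_le hM1
  have hsum : v (x₁ + x₂) ≤ m := hm ▸ v.map_add x₁ x₂
  have k1 : v (x₃ * (x₁ + x₂)) < M := by
    rw [map_mul]
    calc v x₃ * v (x₁ + x₂) ≤ v x₃ * m := by gcongr
      _ < 1 * m := by
        exact mul_lt_mul_of_pos_right h3 hm0
      _ ≤ M := by rw [one_mul]; exact hmM
  have k2 : v (x₁ * x₂ + x₃ * (x₁ + x₂)) = M := by
    have e : v (x₁ * x₂) = M := by rw [map_mul, hM]
    rw [v.map_add_eq_of_lt_left (by rw [e]; exact k1), e]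
  have k3 : v (l * n) = M := by
    have e : 2 * (l * n) = B - (x₁ * x₂ + x₃ * (x₁ + x₂)) := by rw [r1]; ring
    have e1 : v (2 * (l * n)) = v (l * n) := by rw [map_mul, h2, one_mul]
    rw [← e1, e, Valuation.map_sub_swap, v.map_sub_eq_of_lt_left (by
      rw [k2]
      exact hB.trans_le hM1), k2]
  have k4 : v l ^ 2 * (M * v x₃) = M ^ 2 := by
    have e1 : v n ^ 2 = M * v x₃ := by
      rw [← map_pow, ← r2, map_mul, map_mul, hM]
    rw [← e1, ← mul_pow, ← map_mul, k3]
  have k5 : v l ^ 2 ≤ M := by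
    have e : l ^ 2 = (x₁ + x₂) + (x₃ + A) := by linear_combination -r0
    rw [← map_pow, e]
    refine (v.map_add _ _).trans (max_le (hsum.trans hmM) ?_)
    refine (v.map_add _ _).trans (max_le (h3.le.trans hM1) (hA.le.trans hM1))
  have k6 : M ^ 2 < M ^ 2 := by
    calc M ^ 2 = v l ^ 2 * (M * v x₃) := k4.symm
      _ ≤ M * (M * v x₃) := by gcongr
      _ = M ^ 2 * v x₃ := by rw [← mul_assoc, pow_two]
      _ < M ^ 2 * 1 := by
        exact mul_lt_mul_of_pos_left h3 (pow_pos hM0 2)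
      _ = M ^ 2 := mul_one _
  exact lt_irrefl _ k6

/-- the point is at infinity or has a large abscissa -/
def Big (v : Valuation L Γ) {W : WeierstrassCurve L} (P : W.toAffine.Point) : Prop :=
  ∀ X Y h, P = Affine.Point.some X Y h → 1 ≤ v X

lemma big_zero {W : WeierstrassCurve L} : Big v (0 : W.toAffine.Point) := by
  intro X Y h e
  exact absurd e.symm (Affine.Point.some_ne_zero _)

lemma big_some {W : WeierstrassCurve L} {X Y : L} (h : W.toAffine.Nonsingular X Y) :
    Big v (Affine.Point.some X Y h : W.toAffine.Point) ↔ 1 ≤ v X := by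
  constructor
  · intro hB
    exact hB X Y h rfl
  · intro h1 X' Y' h' e
    rw [Affine.Point.some.injEq] at e
    rw [← e.1]
    exact h1

variable [DecidableEq L]

lemma big_add (h2 : v (2 : L) = 1) {W : WeierstrassCurve L} (k1 : W.a₁ = 0) (k3 : W.a₃ = 0)
    (k6 : W.a₆ = 0) (hA : v W.a₂ < 1) (hB : v W.a₄ < 1) (P Q : W.toAffine.Point)
    (hP : Big v P) (hQ : Big v Q) : Big v (P + Q) := by
  have h20 : (2 : L) ≠ 0 := by
    intro h
    rw [h, map_zero] at h2
    exact zero_ne_one h2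
  match P, Q, hP, hQ with
  | 0, Q, _, hQ => rwa [zero_add]
  | .some x₁ y₁ h₁, 0, hP, _ => rwa [add_zero]
  | .some x₁ y₁ h₁, .some x₂ y₂ h₂, hP, hQ =>
    rw [big_some] at hP hQ
    have e₁ := h₁.1
    have e₂ := h₂.1
    rw [Affine.equation_iff, k1, k3, k6] at e₁ e₂
    have hneg : W.toAffine.negY x₂ y₂ = -y₂ := by
      simp only [Affine.negY, k1, k3]
      ring
    by_cases hxy : x₁ = x₂ ∧ y₁ = W.toAffine.negY x₂ y₂
    · rw [Affine.Point.add_of_Y_eq hxy.1 hxy.2]
      exact big_zero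
    · rw [Affine.Point.add_some hxy, big_some]
      set l := W.toAffine.slope x₁ x₂ y₁ y₂ with hl
      have hx₃ : W.toAffine.addX x₁ x₂ l = l ^ 2 - W.a₂ - x₁ - x₂ := by
        simp only [Affine.addX, k1]
        ring
      rw [hx₃]
      by_cases hx : x₁ = x₂
      · have hy : y₁ ≠ W.toAffine.negY x₂ y₂ := fun h => hxy ⟨hx, h⟩
        have hy' : y₁ = y₂ := by
          subst hx
          have h3 : (y₁ - y₂) * (y₁ + y₂) = 0 := by linear_combination e₁ - e₂
          rcases mul_eq_zero.1 h3 with h4 | h4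
          · exact sub_eq_zero.1 h4
          · exfalso
            apply hy
            rw [hneg]
            exact eq_neg_of_add_eq_zero_left h4
        have hy0 : y₁ ≠ 0 := by
          intro h0
          apply hy
          rw [hneg, ← hy', h0, neg_zero]
        have hl' : l * (2 * y₁) = 3 * x₁ ^ 2 + 2 * W.a₂ * x₁ + W.a₄ := by
          rw [hl, Affine.slope_of_Y_ne hx hy]
          have e3 : y₁ - W.toAffine.negY x₁ y₁ = 2 * y₁ := by
            simp only [Affine.negY, k1, k3]
            ring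
          rw [e3, k1]
          have h5 : 2 * y₁ ≠ 0 := mul_ne_zero h20 hy0
          field_simp
          ring
        subst hx
        refine val_key (l := l) (n := y₁ - l * x₁) h2 hA hB (by ring) ?_ ?_ hP hP
        · linear_combination hl'
        · have h6 : 2 * (x₁ * x₁ * (l ^ 2 - W.a₂ - x₁ - x₁) - (y₁ - l * x₁) ^ 2) = 0 := by
            linear_combination (2 * x₁) * hl' - 2 * e₁
          rcases mul_eq_zero.1 h6 with h7 | h7
          · exact absurd h7 h20
          · exact sub_eq_zero.1 h7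
      · have hl' : l * (x₁ - x₂) = y₁ - y₂ := by
          rw [hl, Affine.slope_of_X_ne hx]
          exact div_mul_cancel₀ _ (sub_ne_zero.2 hx)
        have hx' : x₁ - x₂ ≠ 0 := sub_ne_zero.2 hx
        have r1 : x₁ * x₂ + (l ^ 2 - W.a₂ - x₁ - x₂) * (x₁ + x₂) = W.a₄ - 2 * l * (y₁ - l * x₁) := by
          have h6 : (x₁ - x₂) * (x₁ * x₂ + (l ^ 2 - W.a₂ - x₁ - x₂) * (x₁ + x₂) -
              (W.a₄ - 2 * l * (y₁ - l * x₁))) = 0 := by
            linear_combination e₁ - e₂ + (y₁ + y₂ - l * (x₁ - x₂) + 2 * (l * (x₁ - x₂) - y₁ + y₁)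
              - 2 * l * (x₁ - x₂)) * hl'
          rcases mul_eq_zero.1 h6 with h7 | h7
          · exact absurd h7 hx'
          · exact sub_eq_zero.1 h7
        refine val_key (l := l) (n := y₁ - l * x₁) h2 hA hB (by ring) r1 ?_ hP hQ
        linear_combination x₁ * r1 - e₁

/-- the group of these points -/
def BG (v : Valuation L Γ) (h2 : v (2 : L) = 1) {W : WeierstrassCurve L} (k1 : W.a₁ = 0)
    (k3 : W.a₃ = 0) (k6 : W.a₆ = 0) (hA : v W.a₂ < 1) (hB : v W.a₄ < 1) :
    AddSubgroup W.toAffine.Point where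
  carrier := {P | Big v P}
  zero_mem' := big_zero
  add_mem' := fun {P Q} hP hQ => big_add h2 k1 k3 k6 hA hB P Q hP hQ
  neg_mem' := by
    intro P hP
    rcases P with _ | ⟨x, y, h⟩
    · exact hP
    · have h1 : Big v (Affine.Point.some x y h : W.toAffine.Point) := hP
      rw [big_some] at h1
      show Big v (-(Affine.Point.some x y h) : W.toAffine.Point)
      rw [Affine.Point.neg_some, big_some]
      exact h1

end

section

variable {L : Type} [Field L] [CharZero L] {j : ℕ} {W W' : WeierstrassCurve L} (S : VchD j W W')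
  [DecidableEq L] {v : Valuation L ℤᵐ⁰} (h2 : v (2 : L) = 1) (h7 : v (7 : L) = 1)
  (hD : v (1 + 4 * (j : L)) = exp (-1))

include S h2 h7 hD in
/-- index two at a place above `D` where `-7` is not a square -/
theorem idxD_two (hH : ∀ x : L, v (x - 1) < 1 → IsSquare x) (hns : ¬ IsSquare (-7 : L)) :
    (AddSubgroup.closure {P : W.toAffine.Point | ∀ x y h, P = Affine.Point.some x y h →
      1 < v x ∨ v (W.a₁ * y - (3 * x ^ 2 + 2 * W.a₂ * x + W.a₄)) = 1 ∨
      v (2 * y + W.a₁ * x + W.a₃) = 1}).index = 2 := by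
  obtain ⟨l21, l112⟩ := lbad h2 h7 hD
  have l112' : v (112 * (1 + 4 * (j : L)) ^ 2) < 1 := by
    rw [l112, ← exp_zero, exp_lt_exp]
    norm_num
  set G := BG (W := W') v h2 S.k1 S.k3 S.k6 (by rw [S.k2]; exact l21) (by rw [S.k4]; exact l112')
    with hG
  have hmem : ∀ {X Y : L} (h : W'.toAffine.Nonsingular X Y),
      (Affine.Point.some X Y h : W'.toAffine.Point) ∈ G ↔ 1 ≤ v X := fun h => big_some h
  rw [idx_of S G (fun x y h => ?_)]
  · rw [AddSubgroup.index_eq_two_iff]
    refine ⟨Te S.wr0, fun P => ?_⟩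
    have hT : Te S.wr0 ∉ G := by
      unfold Te
      rw [hmem, map_zero]
      exact not_le.2 zero_lt_one
    by_cases hP : P ∈ G
    · refine Or.inr ⟨hP, fun h3 => hT ?_⟩
      have := G.sub_mem h3 hP
      rwa [add_sub_cancel_left] at this
    · refine Or.inl ⟨?_, hP⟩
      rcases P with _ | ⟨X, Y, h⟩
      · exact absurd G.zero_mem hP
      by_cases hX : X = 0
      · rw [S.wr0.eq_T hX h, S.wr0.T_add_T]
        exact G.zero_mem
      · obtain ⟨Y', h', e'⟩ := S.wr0.add_T hX h
        rw [e', hmem]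
        have hP' : ¬ (1 ≤ v X) := fun h3 => hP ((hmem h).2 h3)
        rw [sub_zero, zero_add]
        exact small_val h2 h7 hD hH hns hX (S.eqn' h.1) (not_le.1 hP')
  · rw [sing_redG h2 l21 l112' (S.eqnA h.1), vFd_some, hmem]

end

end Pool.Agent.N818.TD
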