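import Pool.Agent.N818.TD.Tr
import Pool.Agent.N818.TD.Idx
import Pool.Agent.Y698.Uf
import Pool.Agent.Y698.Sp2

/-!
# The Tamagawa numbers of the twists over `ℚ`
-/

set_option autoImplicit false
set_option linter.unusedSectionVars false

namespace Pool.Agent.N818.TD

open Pool.Agent.Y698 Pool.Agent.Y698.SG
open NumberField IsDedekindDomain IsCyclotomicExtension.Rat WithZero WeierstrassCurve
open Pool.Agent.H921R2.TatePole Pool.Agent.H82R3.EK
open Pool.Agent.TH841.SH.D (Pt act)

section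
variable {K : Type} [Field K] [NumberField K]

/-- degree one: `-7` is not a square -/
lemma m7_nsq (v : HeightOneSpectrum (𝓞 K)) {q : ℕ} (hq : Gq q)
    (hns : ¬ IsSquare (-7 : ZMod q)) (hv : (below v : ℕ) = q)
    (hd : deg v = 1) : ¬ IsSquare (-7 : v.adicCompletion K) := by
  rintro ⟨z, hz⟩
  have : Fact q.Prime := ⟨hq.pr⟩
  have h7 : v.valuation K 7 = 1 := by
    have := val_one_of v (p := 7) (by norm_num) (by
      rw [hv]
      exact hq.n7)
    exact_mod_cast this
  have h1 : (Valued.v : Valuation (v.adicCompletion K) ℤᵐ⁰) z = 1 := by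
    have h3 := congrArg (Valued.v : Valuation (v.adicCompletion K) ℤᵐ⁰) hz
    rw [Valuation.map_neg, val_seven, h7, map_mul] at h3
    have hcz := cz_compl v
    have hde : DecidableEq (v.adicCompletion K) := Classical.decEq _
    obtain ⟨m, hm⟩ := exists_exp (Valued.v : Valuation (v.adicCompletion K) ℤᵐ⁰) (x := z) (by
      rintro rfl
      rw [map_zero, mul_zero] at h3
      exact one_ne_zero h3)
    rw [hm, ← exp_add, ← exp_zero, exp_inj] at h3
    have : m = 0 := by omega
    rw [hm, this, exp_zero]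
  obtain ⟨y, hy⟩ := Pool.Agent.H723R3.exists_approx_int (R := 𝓞 K) v
    ((HeightOneSpectrum.mem_adicCompletionIntegers (𝓞 K) K v).2 h1.le) 1
  rw [Units.val_one] at hy
  set Y : v.adicCompletion K := algebraMap (𝓞 K) (v.adicCompletion K) y with hY
  have e0 : Y = algebraMap K (v.adicCompletion K) (algebraMap (𝓞 K) K y) := by
    rw [hY, ← IsScalarTower.algebraMap_apply]
  have h5 : ((-7 : ℤ) : 𝓞 K) - y * y ∈ v.asIdeal := by
    rw [← v.valuation_lt_one_iff_mem (K := K), ← val_emb]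
    show (Valued.v : Valuation (v.adicCompletion K) ℤᵐ⁰) (algebraMap K (v.adicCompletion K)
      (algebraMap (𝓞 K) K (((-7 : ℤ) : 𝓞 K) - y * y))) < 1
    rw [map_sub, map_mul, map_sub, map_mul, ← e0, map_intCast, map_intCast]
    have e : ((-7 : ℤ) : v.adicCompletion K) - Y * Y = -((Y - z) * (Y - z + 2 * z)) := by
      push_cast
      linear_combination hz
    rw [e, Valuation.map_neg, map_mul]
    refine mul_lt_one_of_lt_of_le hy ?_
    refine vadd hy.le (vmul ?_ h1.le)
    exact_mod_cast vnat (Valued.v : Valuation (v.adicCompletion K) ℤᵐ⁰) 2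
  obtain ⟨f⟩ := exists_hom v hq.pr hv
  have hp := v.isPrime
  have hcard : Nat.card (𝓞 K ⧸ v.asIdeal) = q := by rw [card_quo, hd, pow_one, hv]
  have hfin : Finite (𝓞 K ⧸ v.asIdeal) := Nat.finite_of_card_ne_zero (by rw [hcard]; exact hq.pr.ne_zero)
  have hnt : Nontrivial (𝓞 K ⧸ v.asIdeal) := Ideal.Quotient.nontrivial_iff.2 v.isPrime.ne_top
  have hbij : Function.Bijective f := by
    have h8 : Function.Injective f := f.injective
    refine (Nat.bijective_iff_injective_and_card f).2 ⟨h8, ?_⟩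
    rw [hcard, Nat.card_zmod]
  obtain ⟨t, ht⟩ := hbij.2 (Ideal.Quotient.mk v.asIdeal y)
  apply hns
  refine ⟨t, hbij.1 ?_⟩
  rw [map_mul, ht, ← map_mul]
  have h9 := (Ideal.Quotient.eq).2 h5
  rw [← h9, map_intCast, map_neg, map_ofNat]
  push_cast
  rfl

/-- `-7` is a square at the places above the split primes -/
lemma m7_split (v : HeightOneSpectrum (𝓞 K)) {q : ℕ} (hq : Gq q) (hq2 : q ≠ 2)
    (hsq : IsSquare (-7 : ZMod q)) (hv : (below v : ℕ) = q) :
    IsSquare (-7 : v.adicCompletion K) := by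
  have : Fact q.Prime := ⟨hq.pr⟩
  have hne7 : q ≠ 7 := hq.n7
  have h7 : v.valuation K 7 = 1 := by
    have := val_one_of v (p := 7) (by norm_num) (by rw [hv]; exact hne7)
    exact_mod_cast this
  have h2 : v.valuation K 2 = 1 := by
    exact_mod_cast val_one_of v Nat.prime_two (by rw [hv]; exact hq2)
  have hmem : ((q : ℕ) : 𝓞 K) ∈ v.asIdeal := by
    have := (nm_eq v).2.2
    rwa [hv] at this
  obtain ⟨s, hs⟩ := hsq
  obtain ⟨k, rfl⟩ := ZMod.intCast_surjective s
  have h3 : (q : ℤ) ∣ -7 - k * k := by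
    rw [← ZMod.intCast_zmod_eq_zero_iff_dvd _ q]
    push_cast
    rw [hs]
    ring
  obtain ⟨t, ht⟩ := h3
  have h4 := sq_lift v h2 (m := -7) (y := (k : 𝓞 K)) (by
      have e : ((-7 : ℤ) : 𝓞 K) - (k : 𝓞 K) * (k : 𝓞 K) = (q : 𝓞 K) * (t : 𝓞 K) := by
        have := congrArg (fun z : ℤ => (z : 𝓞 K)) ht
        push_cast at this ⊢
        exact this
      rw [e]
      exact Ideal.mul_mem_right _ _ hmem) (by
      push_cast
      rw [Valuation.map_neg, h7])
  push_cast at h4
  exact h4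


variable {j : ℕ}

theorem tam_split (v : HeightOneSpectrum (𝓞 K)) {q : ℕ} (hq : Gq q) (hq2 : q ≠ 2)
    (hsq : IsSquare (-7 : ZMod q)) (hv : (below v : ℕ) = q)
    (hD : v.valuation K (1 + 4 * (j : K)) = exp (-1)) :
    tam (AX K j) v = 4 := by
  have := cz_compl v
  have h7 : v.valuation K 7 = 1 := by
    have := val_one_of v (p := 7) (by norm_num) (by
      rw [hv]
      exact hq.n7)
    exact_mod_cast this
  have h2 : v.valuation K 2 = 1 := by
    exact_mod_cast val_one_of v Nat.prime_two (by rw [hv]; exact hq2)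
  have h2' : (Valued.v : Valuation (v.adicCompletion K) ℤᵐ⁰) 2 = 1 := by
    have h4 := val_emb v 2
    rw [h2, map_ofNat] at h4
    exact h4
  obtain ⟨z, hz⟩ := m7_split v hq hq2 hsq hv
  exact @idxD_four _ _ _ _ _ _ (vchd K j (v.adicCompletion K)) (Classical.decEq _) Valued.v
    h2' (by rw [val_seven, h7]) (by rw [val_D, hD]) ((1 + z) / 2) (by
      field_simp
      linear_combination -hz)

theorem tam_inert (v : HeightOneSpectrum (𝓞 K)) {q : ℕ} (hq : Gq q) (hq2 : q ≠ 2)
    (hns : ¬ IsSquare (-7 : ZMod q)) (hv : (below v : ℕ) = q)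
    (hD : v.valuation K (1 + 4 * (j : K)) = exp (-1)) (hd : deg v = 1) :
    tam (AX K j) v = 2 := by
  have := cz_compl v
  have h7 : v.valuation K 7 = 1 := by
    have := val_one_of v (p := 7) (by norm_num) (by
      rw [hv]
      exact hq.n7)
    exact_mod_cast this
  have h2 : v.valuation K 2 = 1 := by
    exact_mod_cast val_one_of v Nat.prime_two (by rw [hv]; exact hq2)
  have h2' : (Valued.v : Valuation (v.adicCompletion K) ℤᵐ⁰) 2 = 1 := by
    have h4 := val_emb v 2
    rw [h2, map_ofNat] at h4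
    exact h4
  exact @Pool.Agent.N818.TD.idxD_two _ _ _ _ _ _ (vchd K j (v.adicCompletion K))
    (Classical.decEq _) Valued.v h2' (by rw [val_seven, h7]) (by rw [val_D, hD])
    (hensel_sq v h2) (m7_nsq v hq hns hv hd)

end

/-- there is one place above each prime number -/
theorem one_place (q : Nat.Primes) : ∃ v : HeightOneSpectrum (𝓞 ℚ), below v = q ∧ deg v = 1 ∧
    ∀ w : HeightOneSpectrum (𝓞 ℚ), below w = q → w = v := by
  have hq : Fact (q : ℕ).Prime := ⟨q.2⟩
  have hM : IsCyclotomicExtension {(q : ℕ)} ℚ (CyclotomicField q ℚ) := cyc_inst q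
  obtain ⟨h1, h2⟩ := split_ram (q : ℕ) (CyclotomicField q ℚ) ℚ q rfl
  rw [Fintype.card_eq_one_iff] at h2
  obtain ⟨⟨v, hv⟩, h3⟩ := h2
  exact ⟨v, hv, h1 v hv, fun w hw => congrArg Subtype.val (h3 ⟨w, hw⟩)⟩

/-- the valuation of the prime number -/
theorem val_q {q : Nat.Primes} {v : HeightOneSpectrum (𝓞 ℚ)} (hv : below v = q) :
    v.valuation ℚ ((q : ℕ) : ℚ) = exp (-1) := by
  obtain ⟨r, hr, hqr⟩ : ∃ r : ℕ, r.Prime ∧ (q : ℕ) ≠ r := by
    by_cases h : (q : ℕ) = 5
    · exact ⟨3, by norm_num, by rw [h]; norm_num⟩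
    · exact ⟨5, by norm_num, h⟩
  have hrf : Fact r.Prime := ⟨hr⟩
  have hM : IsCyclotomicExtension {r} ℚ (CyclotomicField r ℚ) := cyc_inst r
  exact val_unram r (CyclotomicField r ℚ) ℚ q
    (fun h => hqr ((Nat.prime_dvd_prime_iff_eq q.2 hr).1 h)) v hv

end Pool.Agent.N818.TD
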