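import Pool.Agent.N818.TD.Fct

/-!
# The criterion in the ring `ℤ[(1 + √-7)/2]`
-/

set_option autoImplicit false
set_option linter.unusedSectionVars false

namespace Pool.Agent.N818.TD

open Pool.Agent.Y698

/-- the ring `ℤ[ω]`, `ω² = ω - 2` -/
abbrev OO : Type := QuadraticAlgebra ℤ (-2) 1

/-- `ω = (1 + √-7)/2` -/
def om : OO := ⟨0, 1⟩

lemma om_sq : om ^ 2 = om - 2 := by
  have e : (2 : OO) = ⟨2, 0⟩ := rfl
  rw [pow_two, e]
  show (⟨0, 1⟩ : OO) * ⟨0, 1⟩ = ⟨0, 1⟩ - ⟨2, 0⟩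
  rw [QuadraticAlgebra.mk_mul_mk, QuadraticAlgebra.mk_sub_mk]
  congr 1

lemma ev_om (r : RR) : ev om om_sq r = ⟨cX r, cY r⟩ := by
  rw [ev_apply]
  have e1 : ((cX r : ℤ) : OO) = ⟨cX r, 0⟩ := rfl
  have e2 : ((cY r : ℤ) : OO) = ⟨cY r, 0⟩ := rfl
  rw [e1, e2]
  show (⟨cX r, 0⟩ : OO) + ⟨cY r, 0⟩ * ⟨0, 1⟩ = _
  rw [QuadraticAlgebra.mk_mul_mk]
  ext
  · show cX r + (cY r * 0 + -2 * 0 * 1) = cX r
    ring
  · show 0 + (cY r * 1 + 0 * 0 + 1 * 0 * 1) = cY r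
    ring

/-- the two models of the ring -/
noncomputable def eo : RR ≃+* OO := RingEquiv.ofBijective (ev om om_sq) (by
  constructor
  · intro r t h
    rw [ev_om, ev_om] at h
    exact RR_ext (congrArg QuadraticAlgebra.re h) (congrArg QuadraticAlgebra.im h)
  · intro z
    refine ⟨(z.re : RR) + (z.im : RR) * aR, ?_⟩
    rw [ev_om]
    have h := cXY_of (r := (z.re : RR) + (z.im : RR) * aR) (x := z.re) (y := z.im) (by
      push_cast
      rfl)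
    rw [h.1, h.2])

lemma eo_aR : eo aR = om := ev_aR om om_sq

lemma eo_fR : eo fR = 2 * om - 1 := by
  unfold fR
  rw [map_sub, map_mul, map_ofNat, map_one, eo_aR]

/-- a factorisation `D = d d'` in `ℤ[ω]`, `ω = (1 + √-7)/2`, with `d ≡ 1 mod ω²`, `d ≠ 1`, such that
`d` is a square modulo the primes dividing `d'` and `-√-7 d'` is a square modulo the primes
dividing `d` -/
def Fac (D : ℤ) : Prop := ∃ d d' : OO, (D : OO) = d * d' ∧ om ^ 2 ∣ d - 1 ∧ d ≠ 1 ∧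
  (∀ p : OO, Prime p → p ∣ d' → ∃ x : OO, p ∣ x ^ 2 - d) ∧
  ∀ p : OO, Prime p → p ∣ d → ∃ x : OO, p ∣ x ^ 2 + (2 * om - 1) * d'

lemma eo_prime {p : RR} : Prime (eo p) ↔ Prime p := MulEquiv.prime_iff eo.toMulEquiv

lemma eo_dvd {a b : RR} : eo a ∣ eo b ↔ a ∣ b := map_dvd_iff eo

theorem fac_iff (D : ℤ) : Fac D ↔ Fct ((D : ℤ) : RR) := by
  constructor
  · rintro ⟨d, d', h1, h2, h3, h4, h5⟩
    obtain ⟨d, rfl⟩ := eo.surjective d
    obtain ⟨d', rfl⟩ := eo.surjective d'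
    refine ⟨d, d', ?_, ?_, ?_, ?_, ?_⟩
    · apply eo.injective
      rw [map_intCast, h1, map_mul]
    · rw [← eo_dvd, map_pow, eo_aR, map_sub, map_one]
      exact h2
    · rintro rfl
      exact h3 (map_one _)
    · intro p hp hpd
      obtain ⟨x, hx⟩ := h4 (eo p) (eo_prime.2 hp) (eo_dvd.2 hpd)
      obtain ⟨x, rfl⟩ := eo.surjective x
      exact ⟨x, eo_dvd.1 (by rw [map_sub, map_pow]; exact hx)⟩
    · intro p hp hpd
      obtain ⟨x, hx⟩ := h5 (eo p) (eo_prime.2 hp) (eo_dvd.2 hpd)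
      obtain ⟨x, rfl⟩ := eo.surjective x
      exact ⟨x, eo_dvd.1 (by rw [map_add, map_pow, map_mul, eo_fR]; exact hx)⟩
  · rintro ⟨d, d', h1, h2, h3, h4, h5⟩
    refine ⟨eo d, eo d', ?_, ?_, ?_, ?_, ?_⟩
    · rw [← map_mul, ← h1, map_intCast]
    · rw [← eo_dvd, map_pow, eo_aR, map_sub, map_one] at h2
      exact h2
    · intro h
      exact h3 (eo.injective (h.trans (map_one eo).symm))
    · intro p hp hpd
      obtain ⟨p, rfl⟩ := eo.surjective p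
      obtain ⟨x, hx⟩ := h4 p (eo_prime.1 hp) (eo_dvd.1 hpd)
      refine ⟨eo x, ?_⟩
      have := eo_dvd.2 hx
      rwa [map_sub, map_pow] at this
    · intro p hp hpd
      obtain ⟨p, rfl⟩ := eo.surjective p
      obtain ⟨x, hx⟩ := h5 p (eo_prime.1 hp) (eo_dvd.1 hpd)
      refine ⟨eo x, ?_⟩
      have := eo_dvd.2 hx
      rwa [map_add, map_pow, map_mul, eo_fR] at this

end Pool.Agent.N818.TD
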