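import Pool.Agent.N818.TD.Str
import Pool.Agent.N818.TD.Fac
import Pool.Agent.Y655.XT.Shavc
import Pool.Agent.R413.SJ.ShaQ

/-!
# The two models over `ℚ`, and the criterion by factorisations
-/

set_option autoImplicit false
set_option linter.unusedSectionVars false

namespace Pool.Agent.N818.TD

open WeierstrassCurve
open Pool.Agent.Y698 Pool.Agent.Y698.SG
open Pool.Agent.TH841.NF.D (Sha)
open Pool.Agent.Y700 (VR)
open Pool.Agent.N818.TC (A B Es Rz rz_iff exists_fam)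

theorem vr (j : ℕ) : VR (Es (A ((1 + 4 * j : ℕ) : ℤ)) (B ((1 + 4 * j : ℕ) : ℤ))) (AX ℚ j) 2
    (-(1 + 4 * (j : ℚ))) 1 0 := by
  refine ⟨by norm_num, ?_, ?_, ?_, ?_, ?_⟩
  · simp [Es, EX]
  · simp only [Es, EX]
    ring
  · simp [Es, EX]
  · simp only [Es, EX, A]
    push_cast
    ring
  · simp only [Es, EX, A, B]
    push_cast
    ring

theorem disc_ne (j : ℕ) : (AX ℚ j).Δ ≠ 0 := by
  rw [EX_Δ]
  have h1 : (1 + 4 * (j : ℚ)) ≠ 0 := by
    have : ((1 + 4 * j : ℕ) : ℚ) ≠ 0 := by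
      rw [Nat.cast_ne_zero]
      omega
    push_cast at this
    exact this
  exact mul_ne_zero (by norm_num) (pow_ne_zero 6 h1)

/-- the two models have the same points and the same `Ш` -/
theorem same {D j : ℕ} (hj : D = 1 + 4 * j) : Rz (A D) (B D) ↔
    (Finite (AX ℚ j).toAffine.Point ∧ ∀ x : Sha (AX ℚ j), 2 • x = 0 → x = 0) := by
  classical
  subst hj
  have e1 := (vr j).equiv (disc_ne j)
  have e2 := (Pool.Agent.Y655.XT.isoVR (vr j) (disc_ne j)).sha
  unfold Rz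
  rw [Pool.Agent.R413.SJ.ShaQ.two_iff]
  refine and_congr ⟨fun h1 => Finite.of_equiv _ e1.symm.toEquiv,
    fun h1 => Finite.of_equiv _ e1.toEquiv⟩ ⟨fun h1 x hx => ?_, fun h1 x hx => ?_⟩
  · have h2 := h1 (e2 x) (by rw [← map_nsmul, hx, map_zero])
    exact (map_eq_zero_iff e2 e2.injective).1 h2
  · have h2 := h1 (e2.symm x) (by rw [← map_nsmul, hx, map_zero])
    exact (map_eq_zero_iff e2.symm e2.symm.injective).1 h2

/-- **the criterion** -/
theorem rz_fac {D : ℤ} (hsq : Squarefree D) (h4 : D % 4 = 1) (h7 : ¬ (7 : ℤ) ∣ D) :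
    Rz (A D) (B D) ↔ ¬ Fac D := by
  obtain ⟨S, hS, hprod, hE⟩ := exists_fam hsq h4 h7
  rw [rz_iff h4 hprod hE, fac_iff, hprod, ← fct_iff hE]

end Pool.Agent.N818.TD
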