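import Pool.Agent.N818.TD.Tr

/-!
# The local factors of the quadratic twists, all prime factors different from seven
-/

set_option autoImplicit false
set_option linter.unusedSectionVars false

namespace Pool.Agent.N818.TD

open Pool.Agent.Y698 Pool.Agent.Y698.SG


open NumberField IsDedekindDomain WeierstrassCurve Pool.Agent.W189.NF IsCyclotomicExtension.Rat
open Pool.Agent.H921R2.TatePole Pool.Agent.H82R3.EK
open H667R3 Pool.Agent.W192.HK Pool.Agent.TH936.CM Pool.Agent.TH936.PU
open W165.CE (pw pw_eq pw_luc)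

section
variable {K : Type} [Field K] [NumberField K]

/-- the coefficients of the local factors -/
theorem coeffsD (v : HeightOneSpectrum (𝓞 K)) {S : Finset ℕ} (hS : ∀ q ∈ S, Gq q) {j : ℕ}
    (hj : ∏ q ∈ S, q = 1 + 4 * j)
    (h7 : (below v : ℕ) = 7 → v.valuation K ((7 : ℕ) : K) = WithZero.exp (-1 : ℤ))
    (hq : ∀ q ∈ S, (below v : ℕ) = q → v.valuation K ((q : ℕ) : K) = WithZero.exp (-1 : ℤ)) :
    ((aV (EX K (j : K)) v : ℤ) : ℂ) = (∏ q ∈ S, qch q (below v : ℕ)) ^ deg v *
      pw (bc (below v : ℕ)) (ec (below v : ℕ)) (deg v) ∧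
    ((eV (EX K (j : K)) v : ℤ) : ℂ) =
      ((∏ q ∈ S, qch q (below v : ℕ)) ^ 2 * ec (below v : ℕ)) ^ deg v := by
  classical
  obtain ⟨n1, n2, n3⟩ := nm_eq v
  have hW : (EX K (j : K)).baseChange (v.adicCompletion K) =
      (EX (Ov v) (j : Ov v)).map (algebraMap (Ov v) (v.adicCompletion K)) := by
    rw [EX_map, map_natCast]
    have := EX_map (algebraMap K (v.adicCompletion K)) (j : K)
    rw [map_natCast] at this
    exact this
  have hj7 : ((-3375 : ℤ) : v.adicCompletion K) =
      algebraMap (Ov v) (v.adicCompletion K) ((-3375 : ℤ) : Ov v) := (map_intCast _ _).symm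
  have hjv : (IsDiscreteValuationRing.maximalIdeal (v.adicCompletionIntegers K)).valuation
      (v.adicCompletion K) ((-3375 : ℤ) : v.adicCompletion K) ≤ 1 := by
    rw [hj7]
    exact HeightOneSpectrum.valuation_le_one _ _
  have hj3 : ((EX K (j : K)).baseChange (v.adicCompletion K)).c₄ ^ 3 =
      ((-3375 : ℤ) : v.adicCompletion K) * ((EX K (j : K)).baseChange (v.adicCompletion K)).Δ := by
    rw [hW, EX_map, EX_Δ, EX_c₄]
    push_cast
    ring
  -- units
  have hunit : ∀ p : ℕ, p.Prime → (below v : ℕ) ≠ p → IsUnit ((p : ℕ) : Ov v) := by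
    intro p hp hne
    by_contra hcon
    have h1 : IsLocalRing.residue (Ov v) ((p : ℕ) : Ov v) = 0 :=
      (IsLocalRing.residue_eq_zero_iff _).2 ((IsLocalRing.mem_maximalIdeal _).2 hcon)
    rw [map_natCast] at h1
    have hfin := finite_res v
    have hcard : Nat.card (IsLocalRing.ResidueField (Ov v)) = (below v : ℕ) ^ deg v := by
      rw [← n1]
      exact card_res v
    have h2 : ((below v : ℕ) : IsLocalRing.ResidueField (Ov v)) = 0 := by
      have h2 : ((Nat.card (IsLocalRing.ResidueField (Ov v)) : ℕ) :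
          IsLocalRing.ResidueField (Ov v)) = 0 := by
        have := Fintype.ofFinite (IsLocalRing.ResidueField (Ov v))
        rw [Nat.card_eq_fintype_card]
        exact Nat.cast_card_eq_zero _
      rw [hcard] at h2
      push_cast at h2
      exact (pow_eq_zero_iff n2.ne').1 h2
    have hcop : IsCoprime ((below v : ℕ) : ℤ) (p : ℤ) :=
      Nat.isCoprime_iff_coprime.2 ((Nat.coprime_primes (below v).2 hp).2 hne)
    obtain ⟨s, t, hst⟩ := hcop
    have h3 := congrArg (fun z : ℤ => (z : IsLocalRing.ResidueField (Ov v))) hst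
    push_cast at h3
    rw [h1, h2, mul_zero, mul_zero, add_zero] at h3
    exact zero_ne_one h3
  have hvp : ∀ x : Ov v, IsUnit x → (IsDiscreteValuationRing.maximalIdeal
      (v.adicCompletionIntegers K)).valuation (v.adicCompletion K) (x : v.adicCompletion K) = 1 := by
    intro x hx
    exact v_unit (v.adicCompletionIntegers K) hx
  have hDc : ∀ (A : Type) [CommRing A], (1 + 4 * (j : A)) = ((∏ q ∈ S, q : ℕ) : A) := by
    intro A _
    rw [hj]
    push_cast
    rfl
  have hDc2 : ∀ (A : Type) [CommRing A], ((∏ q ∈ S, q : ℕ) : A) = ∏ q ∈ S, (q : A) := by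
    intro A _
    push_cast
    rfl
  by_cases hb : (below v : ℕ) = 7
  · have h8 := mv v (h7 hb)
    have hDu : IsUnit ((∏ q ∈ S, q : ℕ) : Ov v) := by
      rw [hDc2]
      refine isUnit_fprod fun q hqS => ?_
      refine hunit q (hS q hqS).pr ?_
      rw [hb]
      intro h
      exact (hS q hqS).n7 h.symm
    have hΔ : (IsDiscreteValuationRing.maximalIdeal (v.adicCompletionIntegers K)).valuation
        (v.adicCompletion K) ((EX K (j : K)).baseChange (v.adicCompletion K)).Δ =
          WithZero.exp (-((3 : ℕ) : ℤ)) := by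
      rw [hW, EX_map, EX_Δ, map_natCast, hDc]
      have e : (-343 : v.adicCompletion K) = -(((7 : ℕ) : v.adicCompletion K) ^ 3) := by norm_num
      have h9 := hvp _ hDu
      have e9 : (((∏ q ∈ S, q : ℕ) : Ov v) : v.adicCompletion K) =
        ((∏ q ∈ S, q : ℕ) : v.adicCompletion K) := by push_cast; rfl
      rw [e9] at h9
      rw [map_mul, map_pow, h9, one_pow, mul_one, e, Valuation.map_neg, map_pow, h8,
        ← WithZero.exp_nsmul]
      rfl
    obtain ⟨a1, a2⟩ := min_add' (v.adicCompletionIntegers K) (by norm_num) hΔ hjv hj3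
    unfold aV eV
    rw [a1, a2, hb]
    have hb7 : bc 7 = 0 := by
      have := bc_seven 0
      rwa [zero_add, pow_one] at this
    have he7 : ec 7 = 0 := by unfold ec; rw [if_pos rfl]
    rw [hb7, he7]
    constructor
    · have := pw_eq (t := 0) (u := 0) (α := 0) (β := 0) (by ring) (by ring) (deg v)
      rw [this, zero_pow n2.ne']
      norm_num
    · rw [mul_zero, zero_pow n2.ne']
      norm_num
  by_cases hbS : (below v : ℕ) ∈ S
  · -- additive reduction at the primes dividing `D`
    set p : ℕ := (below v : ℕ) with hp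
    have hpr : p.Prime := (below v).2
    have h8 := mv v (hq p hbS rfl)
    have hDsp : ∏ q ∈ S, q = p * ∏ q ∈ S.erase p, q := (Finset.mul_prod_erase S _ hbS).symm
    have hDu : IsUnit ((∏ q ∈ S.erase p, q : ℕ) : Ov v) := by
      have : ((∏ q ∈ S.erase p, q : ℕ) : Ov v) = ∏ q ∈ S.erase p, (q : Ov v) := by
        push_cast
        rfl
      rw [this]
      refine isUnit_fprod fun q hqS => ?_
      rw [Finset.mem_erase] at hqS
      exact hunit q (hS q hqS.2).pr (Ne.symm hqS.1)
    have h7u := hunit 7 (by norm_num) hb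
    have hΔ : (IsDiscreteValuationRing.maximalIdeal (v.adicCompletionIntegers K)).valuation
        (v.adicCompletion K) ((EX K (j : K)).baseChange (v.adicCompletion K)).Δ =
          WithZero.exp (-((6 : ℕ) : ℤ)) := by
      rw [hW, EX_map, EX_Δ, map_natCast, hDc, hDsp]
      have e : (-343 : v.adicCompletion K) = -(((7 : ℕ) : v.adicCompletion K) ^ 3) := by norm_num
      have h9 := hvp _ hDu
      have e9 : (((∏ q ∈ S.erase p, q : ℕ) : Ov v) : v.adicCompletion K) =
        ((∏ q ∈ S.erase p, q : ℕ) : v.adicCompletion K) := by push_cast; rfl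
      rw [e9] at h9
      have h10 := hvp _ h7u
      have e10 : (((7 : ℕ) : Ov v) : v.adicCompletion K) = ((7 : ℕ) : v.adicCompletion K) := by
        push_cast; rfl
      rw [e10] at h10
      have e11 : ((p * ∏ q ∈ S.erase p, q : ℕ) : v.adicCompletion K) =
        (p : v.adicCompletion K) * ((∏ q ∈ S.erase p, q : ℕ) : v.adicCompletion K) := by
        rw [Nat.cast_mul]
      rw [e11, map_mul, map_pow, map_mul, h9, mul_one, h8, e, Valuation.map_neg, map_pow, h10,
        one_pow, one_mul, ← WithZero.exp_nsmul]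
      rfl
    obtain ⟨a1, a2⟩ := min_add' (v.adicCompletionIntegers K) (by norm_num) hΔ hjv hj3
    unfold aV eV
    have he0 : ∏ q ∈ S, qch q (p : ℕ) = 0 := by
      refine Finset.prod_eq_zero hbS ?_
      rcases qch_val hpr (p : ℤ) with h | h
      · exact h.2
      · exact absurd dvd_rfl h.1
    rw [a1, a2, he0, zero_pow n2.ne', zero_mul, zero_pow two_ne_zero, zero_mul, zero_pow n2.ne']
    norm_num
  · have hfin := finite_res v
    have hcard : Nat.card (IsLocalRing.ResidueField (Ov v)) = (below v : ℕ) ^ deg v := by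
      rw [← n1]
      exact card_res v
    have hDu : IsUnit ((∏ q ∈ S, q : ℕ) : Ov v) := by
      rw [hDc2]
      refine isUnit_fprod fun q hqS => hunit q (hS q hqS).pr ?_
      intro h
      exact hbS (h ▸ hqS)
    have hΔ : IsUnit (EX (Ov v) (j : Ov v)).Δ := by
      rw [EX_Δ, hDc]
      refine IsUnit.mul ?_ (hDu.pow 6)
      have e : (-343 : Ov v) = -(((7 : ℕ) : Ov v) ^ 3) := by norm_num
      rw [e]
      exact ((hunit 7 (by norm_num) hb).pow 3).neg
    obtain ⟨a1, a2⟩ := min_count (v.adicCompletionIntegers K) hΔ hW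
    unfold aV eV
    rw [a1, a2, EX_map, map_natCast]
    have hsq : (∏ q ∈ S, qch q (below v : ℕ)) ^ 2 = 1 := by
      refine qprod_sq (fun q hq => (hS q hq).pr) fun q hq hd => ?_
      have h1 : q ∣ (below v : ℕ) := by exact_mod_cast hd
      exact hbS (((Nat.prime_dvd_prime_iff_eq (hS q hq).pr (below v).2).1 h1) ▸ hq)
    constructor
    · exact trace_tw (IsLocalRing.ResidueField (Ov v)) (below v).2 hb n2.ne' hcard hS hbS hj
    · have : ec (below v : ℕ) = ((below v : ℕ) : ℂ) := by unfold ec; rw [if_neg hb]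
      rw [this, hsq, one_mul]
      have h3 : Nat.card (IsLocalRing.ResidueField (v.adicCompletionIntegers K)) =
        (below v : ℕ) ^ deg v := hcard
      rw [h3]
      push_cast
      rfl

end

end Pool.Agent.N818.TD
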