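import Pool.Agent.N818.TD.Tam
import Pool.Agent.N818.TD.Cf
import Pool.Agent.Y698.Fj

/-!
# The product of the Tamagawa numbers and the Euler product over `ℚ`
-/

set_option autoImplicit false
set_option linter.unusedSectionVars false

namespace Pool.Agent.N818.TD

open Pool.Agent.Y698 Pool.Agent.Y698.SG
open NumberField IsDedekindDomain IsCyclotomicExtension.Rat WithZero WeierstrassCurve
open Pool.Agent.H921R2.TatePole Pool.Agent.H82R3.EK
open Pool.Agent.TH841.SH.D (Pt act)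
open Pool.Agent.W189.NF
open W165.CE (pw pw_eq pw_luc)

/-- the places of `ℚ` -/
noncomputable def eqv : Nat.Primes ≃ HeightOneSpectrum (𝓞 ℚ) where
  toFun q := Classical.choose (one_place q)
  invFun := below
  left_inv q := (Classical.choose_spec (one_place q)).1
  right_inv v := ((Classical.choose_spec (one_place (below v))).2.2 v rfl).symm

lemma below_eqv (q : Nat.Primes) : below (eqv q) = q := (Classical.choose_spec (one_place q)).1

lemma deg_eqv (q : Nat.Primes) : deg (eqv q) = 1 := (Classical.choose_spec (one_place q)).2.1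

lemma deg_one (v : HeightOneSpectrum (𝓞 ℚ)) : deg v = 1 := by
  obtain ⟨q, rfl⟩ := eqv.surjective v
  exact deg_eqv q

section

variable {S : Finset ℕ} {j : ℕ}

/-- the valuation of `D` -/
theorem val_D' (hS : ∀ q ∈ S, Gq q) (hj : ∏ q ∈ S, q = 1 + 4 * j)
    (v : HeightOneSpectrum (𝓞 ℚ)) :
    (v.valuation ℚ (1 + 4 * (j : ℚ)) = 1 ∧ ∀ q ∈ S, (below v : ℕ) ≠ q) ∨
      (v.valuation ℚ (1 + 4 * (j : ℚ)) = exp (-1) ∧ ∃ q ∈ S, (below v : ℕ) = q) := by
  have e : ((∏ q ∈ S, q : ℕ) : ℚ) = 1 + 4 * (j : ℚ) := by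
    rw [hj]
    push_cast
    rfl
  have key : ∀ q ∈ S, v.valuation ℚ (q : ℚ) < 1 ↔ (below v : ℕ) = q := by
    intro q hq
    have hp := (hS q hq).pr
    constructor
    · intro h
      by_contra hne
      rw [val_one_of v hp hne] at h
      exact lt_irrefl _ h
    · intro h
      have h1 := val_q (q := ⟨q, hp⟩) (v := v) (Subtype.ext h)
      rw [show ((q : ℕ) : ℚ) = (((⟨q, hp⟩ : Nat.Primes) : ℕ) : ℚ) from rfl, h1, ← exp_zero,
        exp_lt_exp]
      norm_num
  rcases val_prod_exp (w := v.valuation ℚ) (fun q hq => (hS q hq).pr)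
    (fun q hq h => val_q (q := ⟨q, (hS q hq).pr⟩) (v := v) (Subtype.ext ((key q hq).1 h))) with h | h
  · left
    rw [e] at h
    refine ⟨h.1, fun q hq hb => ?_⟩
    have h1 := (key q hq).2 hb
    rw [h.2 q hq] at h1
    exact lt_irrefl _ h1
  · right
    rw [e] at h
    obtain ⟨h1, q, hq, h2⟩ := h
    refine ⟨h1, q, hq, (key q hq).1 ?_⟩
    rw [h2, ← exp_zero, exp_lt_exp]
    norm_num

open Classical in
/-- the exponents -/
noncomputable def ee (q : ℕ) : ℕ := if IsSquare (-7 : ZMod q) then 2 else 1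

theorem tam_prod (hS : ∀ q ∈ S, Gq q) (hj : ∏ q ∈ S, q = 1 + 4 * j) :
    ∏ᶠ v : HeightOneSpectrum (𝓞 ℚ), tam (AX ℚ j) v = 2 ^ (1 + ∑ q ∈ S, ee q) := by
  classical
  have h2S : ∀ q ∈ S, q ≠ 2 := by
    rintro q hq rfl
    have h1 : 2 ∣ ∏ q ∈ S, q := Finset.dvd_prod_of_mem _ hq
    rw [hj] at h1
    omega
  rw [← finprod_comp_equiv eqv]
  let T' : Finset Nat.Primes := S.attach.image fun q => ⟨q.1, (hS q.1 q.2).pr⟩
  have hT' : ∀ p : Nat.Primes, p ∈ T' ↔ (p : ℕ) ∈ S := by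
    intro p
    constructor
    · intro h
      obtain ⟨q, -, rfl⟩ := Finset.mem_image.1 h
      exact q.2
    · intro h
      exact Finset.mem_image.2 ⟨⟨p, h⟩, Finset.mem_attach _ _, rfl⟩
  let p7 : Nat.Primes := ⟨7, by norm_num⟩
  have h7T : p7 ∉ T' := fun h => (hS 7 ((hT' p7).1 h)).n7 rfl
  have hv7 : ∀ p : Nat.Primes, p ≠ p7 → (eqv p).valuation ℚ 7 = 1 := by
    intro p hp
    have h1 := val_one_of (K := ℚ) (eqv p) (p := 7) (by norm_num) (by
      rw [below_eqv]
      exact fun h => hp (Subtype.ext h))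
    exact_mod_cast h1
  have hsupp : Function.mulSupport (fun p : Nat.Primes => tam (AX ℚ j) (eqv p)) ⊆
      ((insert p7 T' : Finset Nat.Primes) : Set Nat.Primes) := by
    intro p hp
    rw [Finset.mem_coe]
    by_contra hT
    rw [Finset.mem_insert, hT', not_or] at hT
    apply hp
    rcases val_D' hS hj (eqv p) with h | h
    · exact tamD_good (eqv p) (hv7 p hT.1) h.1
    · obtain ⟨-, q, hq, h2⟩ := h
      rw [below_eqv] at h2
      exact absurd (by rw [h2]; exact hq) hT.2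
  rw [finprod_eq_prod_of_mulSupport_subset _ hsupp, Finset.prod_insert h7T, pow_add, pow_one]
  congr 1
  · rcases val_D' hS hj (eqv p7) with h | h
    · have h1 := val_q (q := p7) (v := eqv p7) (below_eqv p7)
      exact tamD_seven (eqv p7) (by exact_mod_cast h1) h.1
    · obtain ⟨-, q, hq, h2⟩ := h
      rw [below_eqv] at h2
      exfalso
      exact (hS q hq).n7 h2.symm
  · have himg : ∏ p ∈ T', tam (AX ℚ j) (eqv p) = ∏ q ∈ S.attach, 2 ^ ee q.1 := by
      show ∏ x ∈ S.attach.image (fun q => (⟨q.1, (hS q.1 q.2).pr⟩ : Nat.Primes)), _ = _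
      have e1 : ∏ x ∈ S.attach.image (fun q => (⟨q.1, (hS q.1 q.2).pr⟩ : Nat.Primes)),
          tam (AX ℚ j) (eqv x) = ∏ q ∈ S.attach,
            tam (AX ℚ j) (eqv (⟨q.1, (hS q.1 q.2).pr⟩ : Nat.Primes)) := by
        refine Finset.prod_image (f := fun p : Nat.Primes => tam (AX ℚ j) (eqv p)) ?_
        intro a _ b _ hab
        exact Subtype.ext (congrArg (fun p : Nat.Primes => (p : ℕ)) hab)
      rw [e1]
      refine Finset.prod_congr rfl fun q _ => ?_
      have hq := hS q.1 q.2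
      have hb : (below (eqv (⟨q.1, hq.pr⟩ : Nat.Primes)) : ℕ) = q.1 :=
        congrArg (fun p : Nat.Primes => (p : ℕ)) (below_eqv _)
      rcases val_D' hS hj (eqv (⟨q.1, hq.pr⟩ : Nat.Primes)) with h | h
      · exact absurd hb (h.2 q.1 q.2)
      · unfold ee
        by_cases hs : IsSquare (-7 : ZMod q.1)
        · rw [if_pos hs, tam_split _ hq (h2S q.1 q.2) hs hb h.1]
          norm_num
        · rw [if_neg hs, tam_inert _ hq (h2S q.1 q.2) hs hb h.1 (deg_one _)]
          norm_num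
    rw [himg, Finset.prod_attach S (fun q => 2 ^ ee q), Finset.prod_pow_eq_pow_sum]

/-- the Euler product -/
theorem lser (hS : ∀ q ∈ S, Gq q) (hj : ∏ q ∈ S, q = 1 + 4 * j) {F : ℂ → ℂ}
    (g2 : ∀ z : ℂ, 3 / 2 < z.re → HasProd (fun p : Nat.Primes =>
      (1 - bc p * ((∏ q ∈ S, qch q (p : ℕ)) * ((p : ℕ) : ℂ) ^ (-z)) +
      ec p * ((∏ q ∈ S, qch q (p : ℕ)) * ((p : ℕ) : ℂ) ^ (-z)) ^ 2)⁻¹) (F z)) :
    ∀ s : ℂ, 2 < s.re → F s = (EX ℚ (j : ℚ)).LSeries s := by
  intro s hs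
  have hs' : 3 / 2 < s.re := by linarith
  have h1 := g2 s hs'
  have h2 := (LSeries_hasProd (EX ℚ (j : ℚ)) hs).2
  have h3 := eqv.hasProd_iff.2 h2
  refine HasProd.unique (f := fun p : Nat.Primes => _) h1 ?_
  refine h3.congr_fun ?_
  intro p
  have hp7 : (below (eqv p) : ℕ) = 7 → (eqv p).valuation ℚ ((7 : ℕ) : ℚ) = WithZero.exp (-1 : ℤ) := by
    intro h
    exact val_q (q := ⟨7, by norm_num⟩) (Subtype.ext h)
  have hpS : ∀ q ∈ S, (below (eqv p) : ℕ) = q →
      (eqv p).valuation ℚ ((q : ℕ) : ℚ) = WithZero.exp (-1 : ℤ) := by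
    intro q hq h
    exact val_q (q := ⟨q, (hS q hq).pr⟩) (Subtype.ext h)
  obtain ⟨c1, c2⟩ := coeffsD (eqv p) hS hj hp7 hpS
  have e0 : ∀ x y : ℂ, pw x y 1 = x := fun _ _ => rfl
  simp only [Function.comp_apply]
  rw [c1, c2, (nm_eq (eqv p)).1, below_eqv, deg_eqv, e0, pow_one, pow_one, pow_one]
  congr 1
  ring

end

end Pool.Agent.N818.TD
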