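import Pool.Agent.N818.TC.Rat
import Pool.Agent.N818.TD.Prod

/-!
# The number of the prime elements dividing `D`
-/

set_option autoImplicit false
set_option linter.unusedSectionVars false

namespace Pool.Agent.N818.TD

open Pool.Agent.Y698 Pool.Agent.Y698.SG
open Pool.Agent.N818.TC
open Pool.Agent.R426.QC (prime_cases In sy_negm sy_sp sy_int)
open Pool.Agent.R426.QD (r4 r4_eq r4_a sy_mul_deg)
open Pool.Agent.Y279.SG (dvd_coord nR_dvd cXY_cj)
open scoped Classical

lemma sq_of_norm {q : ℕ} (hq : q.Prime) {ϖ : RR} (hN : nR ϖ = q) : IsSquare (-7 : ZMod q) := by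
  have : Fact q.Prime := ⟨hq⟩
  have hnf : nR ϖ = cX ϖ ^ 2 + cX ϖ * cY ϖ + 2 * cY ϖ ^ 2 := rfl
  rw [hN] at hnf
  by_cases hy : ((cY ϖ : ℤ) : ZMod q) = 0
  · exfalso
    have h1 : (q : ℤ) ∣ cY ϖ := (ZMod.intCast_zmod_eq_zero_iff_dvd _ _).1 hy
    obtain ⟨c, hc⟩ := h1
    have h2 : (q : ℤ) ∣ cX ϖ := by
      have h3 : (q : ℤ) ∣ cX ϖ ^ 2 := by
        refine ⟨1 - cX ϖ * c - 2 * cY ϖ * c, ?_⟩
        have h4 : cX ϖ ^ 2 = q - cX ϖ * cY ϖ - 2 * cY ϖ ^ 2 := by linarith
        rw [h4, hc]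
        ring
      exact (Nat.prime_iff_prime_int.1 hq).dvd_of_dvd_pow h3
    obtain ⟨d, hd⟩ := h2
    rw [hc, hd] at hnf
    have h3 : (q : ℤ) * (q * (d ^ 2 + d * c + 2 * c ^ 2)) = q * 1 := by
      rw [mul_one]
      conv_rhs => rw [hnf]
      ring
    have hq0 : (q : ℤ) ≠ 0 := by exact_mod_cast hq.ne_zero
    have h4 := mul_left_cancel₀ hq0 h3
    have h5 : (q : ℤ) ∣ 1 := ⟨_, h4.symm⟩
    exact (Nat.prime_iff_prime_int.1 hq).not_isUnit (isUnit_of_dvd_one h5)
  · have h1 := congrArg (fun z : ℤ => (z : ZMod q)) hnf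
    push_cast at h1
    rw [ZMod.natCast_self] at h1
    refine ⟨(2 * (cX ϖ : ZMod q) + (cY ϖ : ZMod q)) / (cY ϖ : ZMod q), ?_⟩
    field_simp
    linear_combination 4 * h1

section

variable {D : ℤ} (hsq : Squarefree D) (h7 : ¬ (7 : ℤ) ∣ D) {j : ℤ} (hj : D = 1 + 4 * j)
  {S : Finset RR} (hS : ∀ p, p ∈ S ↔ Prime p ∧ p ∣ ((D : ℤ) : RR) ∧ r4 p = 1)

include hsq h7 hj hS in
/-- the prime elements above one prime number -/
lemma fib_card {q : ℕ} (hq : q ∈ D.natAbs.primeFactors) :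
    (S.filter (fun p => blw p = q)).card = ee q := by
  have hqp := Nat.prime_of_mem_primeFactors hq
  have hqD : (q : ℤ) ∣ D := Int.natCast_dvd.2 (Nat.dvd_of_mem_primeFactors hq)
  have hqD' : (q : RR) ∣ ((D : ℤ) : RR) := by
    obtain ⟨c, hc⟩ := hqD
    exact ⟨(c : RR), by rw [hc]; push_cast; rfl⟩
  have hq7 : q ≠ 7 := by
    rintro rfl
    exact h7 (by exact_mod_cast hqD)
  have hq0 : (q : RR) ≠ 0 := by exact_mod_cast hqp.ne_zero
  have hnu : ¬ IsUnit (q : RR) := by
    intro h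
    have h1 : nR (q : RR) = 1 := by
      rcases isUnit_iff.1 h with h2 | h2 <;> rw [h2]
      · have := nR_int' 1
        push_cast at this
        exact this
      · have := nR_int' (-1)
        push_cast at this
        rw [this]
    rw [nR_nat] at h1
    have h2 : q ^ 2 = 1 := by exact_mod_cast h1
    exact hqp.one_lt.ne' ((Nat.pow_eq_one.1 h2).resolve_right two_ne_zero)
  obtain ⟨ϖ, hirr, hϖq⟩ := WfDvdMonoid.exists_irreducible_factor hnu hq0
  have hϖ := hirr.prime
  have hmem : ∀ p, p ∈ S.filter (fun p => blw p = q) ↔ Prime p ∧ p ∣ (q : RR) ∧ r4 p = 1 := by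
    intro p
    rw [Finset.mem_filter, hS]
    constructor
    · rintro ⟨⟨h1, h2, h3⟩, h4⟩
      exact ⟨h1, (blw_iff h1 hqp).1 h4, h3⟩
    · rintro ⟨h1, h2, h3⟩
      exact ⟨⟨h1, h2.trans hqD', h3⟩, (blw_iff h1 hqp).2 h2⟩
  have hr := r4_of_dvd hj (hϖq.trans hqD')
  rcases prime_cases hϖ with ⟨p, hp, hN⟩ | ⟨p, hp, hϖp⟩
  · -- the split case
    have hpq : p = q := by
      have h2 := nR_dvd' hϖq
      rw [hN, nR_nat] at h2
      have h3 : p ∣ q ^ 2 := by exact_mod_cast h2
      exact (Nat.prime_dvd_prime_iff_eq hp hqp).1 (hp.dvd_of_dvd_pow h3)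
    subst hpq
    have hcj : Prime (cj ϖ) := prime_cj hϖ
    have hmul := mul_cj_prime hN
    have hr' := r4_of_dvd hj (x := cj ϖ) ((show cj ϖ ∣ (p : RR) from
      ⟨ϖ, by rw [mul_comm]; exact hmul.symm⟩).trans hqD')
    have hset : S.filter (fun x => blw x = p) = {nz ϖ, nz (cj ϖ)} := by
      ext x
      rw [hmem, Finset.mem_insert, Finset.mem_singleton]
      constructor
      · rintro ⟨h1, h2, h3⟩
        rw [← hmul] at h2
        rcases h1.dvd_or_dvd h2 with h4 | h4
        · left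
          exact eq_of_assoc ((h1.associated_of_dvd hϖ h4).trans (nz_assoc ϖ)) h3 (r4_unit' hr)
        · right
          exact eq_of_assoc ((h1.associated_of_dvd hcj h4).trans (nz_assoc _)) h3 (r4_unit' hr')
      · rintro (rfl | rfl)
        · exact ⟨(nz_assoc ϖ).prime hϖ, ((nz_assoc ϖ).symm.dvd).trans hϖq, r4_unit' hr⟩
        · refine ⟨(nz_assoc _).prime hcj, ((nz_assoc _).symm.dvd).trans ?_, r4_unit' hr'⟩
          exact ⟨ϖ, by rw [mul_comm]; exact hmul.symm⟩
    have hne : nz ϖ ≠ nz (cj ϖ) := by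
      intro h
      apply not_dvd_cj hp hq7 hϖ hN
      exact ((nz_assoc ϖ).dvd).trans (by rw [h]; exact (nz_assoc _).symm.dvd)
    rw [hset, Finset.card_pair hne]
    unfold ee
    rw [if_pos (sq_of_norm hp hN)]
  · -- the inert case
    have hpq : p = q := by
      have h1 : (p : RR) ∣ (q : RR) := by
        rcases hϖp with h2 | h2
        · rwa [h2] at hϖq
        · rwa [h2, neg_dvd] at hϖq
      have h2 : ((p : ℤ) : RR) ∣ ((q : ℤ) : RR) := by exact_mod_cast h1
      have h3 : p ∣ q := by exact_mod_cast int_dvd h2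
      exact (Nat.prime_dvd_prime_iff_eq hp.pr hqp).1 h3
    subst hpq
    have hassoc : Associated ϖ (p : RR) := by
      rcases hϖp with h2 | h2
      · rw [h2]
      · rw [h2]
        exact (Associated.refl _).neg_left
    have hset : S.filter (fun x => blw x = p) = {nz ϖ} := by
      ext x
      rw [hmem, Finset.mem_singleton]
      constructor
      · rintro ⟨h1, h2, h3⟩
        have h4 : x ∣ ϖ := h2.trans hassoc.symm.dvd
        exact eq_of_assoc ((h1.associated_of_dvd hϖ h4).trans (nz_assoc ϖ)) h3 (r4_unit' hr)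
      · rintro rfl
        exact ⟨(nz_assoc ϖ).prime hϖ, ((nz_assoc ϖ).symm.dvd).trans hϖq, r4_unit' hr⟩
    rw [hset, Finset.card_singleton]
    unfold ee
    rw [if_neg hp.ns]

include hsq h7 hj hS in
/-- **the number of the prime elements** -/
theorem card_S : S.card = ∑ q ∈ D.natAbs.primeFactors, ee q := by
  have hsqN : Squarefree D.natAbs := Int.squarefree_natAbs.2 hsq
  have hmaps : ∀ p ∈ S, blw p ∈ D.natAbs.primeFactors := by
    intro p hp
    obtain ⟨h1, h2, h3⟩ := (hS p).1 hp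
    have hD0 : D.natAbs ≠ 0 := hsqN.ne_zero
    have hbp : (blw p).Prime := by
      unfold blw
      apply Nat.minFac_prime
      intro h4
      apply h1.not_isUnit
      have h5 : nR p = 1 := by
        have := Int.natAbs_of_nonneg (nR_nonneg p)
        rw [h4] at this
        exact_mod_cast this.symm
      refine IsUnit.of_mul_eq_one (cj p) ?_
      rw [mul_cj, h5, Int.cast_one]
    rw [Nat.mem_primeFactors]
    refine ⟨hbp, ?_, hD0⟩
    have h4 := nR_dvd' h2
    rw [nR_int'] at h4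
    have h5 : blw p ∣ (nR p).natAbs := Nat.minFac_dvd _
    have h6 : (nR p).natAbs ∣ D.natAbs ^ 2 := by
      rw [← Int.natAbs_pow]
      exact Int.natAbs_dvd_natAbs.2 h4
    exact hbp.dvd_of_dvd_pow (h5.trans h6)
  rw [Finset.card_eq_sum_card_fiberwise hmaps]
  exact Finset.sum_congr rfl fun q hq => fib_card hsq h7 hj hS hq

end

end Pool.Agent.N818.TD
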