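import Pool.Agent.R426.QD.Cn
import Pool.Agent.R426.QD.Mn

/-!
# The criterion in terms of factorisations
-/

set_option autoImplicit false
set_option linter.unusedSectionVars false

namespace Pool.Agent.N818.TD

open Pool.Agent.R426 Pool.Agent.R426.QD
open Pool.Agent.R426.QC hiding bR trace_D prime_fR lg_sy
open Pool.Agent.Y698
open Pool.Agent.Y698.SG hiding lg_sy
open Pool.Agent.W192.HK (sp)
open scoped Classical

lemma nsq_zero_iff {R : Type} [CommRing R] {x p : R} :
    nsq x p = 0 ↔ ∃ b : R, p ∣ b ^ 2 - x := by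
  unfold nsq
  constructor
  · intro h
    by_contra hcon
    rw [if_neg hcon] at h
    exact one_ne_zero h
  · intro h
    rw [if_pos h]

/-- a factorisation `D = d d'`, `d ≠ 1` primary, such that `d` is a square modulo the primes
dividing `d'` and `-√-7 d'` is a square modulo the primes dividing `d` -/
def Fct (D : RR) : Prop := ∃ d d' : RR, D = d * d' ∧ aR ^ 2 ∣ d - 1 ∧ d ≠ 1 ∧
  (∀ p : RR, Prime p → p ∣ d' → ∃ x : RR, p ∣ x ^ 2 - d) ∧
  ∀ p : RR, Prime p → p ∣ d → ∃ x : RR, p ∣ x ^ 2 + fR * d'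

section

variable {S : Finset RR} (hS : Ev S (fun p => p))

include hS in
/-- the values of the symbols -/
lemma val_out {T : Finset RR} (hTS : T ⊆ S) {p : RR} (hp : p ∈ S) (hpT : p ∉ T) :
    (∑ q ∈ T, lg (sy p q) = 0 ↔ ∃ x : RR, p ∣ x ^ 2 - ∏ q ∈ T, q) := by
  have h4 := fa_lgprod hS.fa hTS hp hpT
  have hnd := fa_notin hS.fa hTS hp hpT
  have h5 : lg (sy p (∏ q ∈ T, q)) = ∑ q ∈ T, lg (sy p q) := h4
  rw [← h5, QC.lg_sy hnd, nsq_zero_iff]

include hS in
lemma val_in {T : Finset RR} {p : RR} (hp : p ∈ S) (hpT : p ∈ T) :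
    (tp p + mc (fun q : RR => q) p + ∑ q ∈ S \ T, lg (sy p q) = 0 ↔
      ∃ x : RR, p ∣ x ^ 2 + fR * ∏ q ∈ S \ T, q) := by
  have hpn := hS.fa.pn p hp
  have hpU : p ∉ S \ T := fun h => (Finset.mem_sdiff.1 h).2 hpT
  have h4 := fa_lgprod hS.fa (Finset.sdiff_subset (s := S) (t := T)) hp hpU
  have hnd' := fa_notin hS.fa (Finset.sdiff_subset (s := S) (t := T)) hp hpU
  have hnf := (hS.c7 p hp).2
  have hpr : Prime p := hpn.pr
  have h6' : fR * (∏ q ∈ S \ T, q) ∉ sp p := by
    rw [Ideal.mem_span_singleton]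
    intro h
    rcases hpr.dvd_or_dvd h with h | h
    · exact hnf (Ideal.mem_span_singleton.2 h)
    · exact hnd' (Ideal.mem_span_singleton.2 h)
  have h6 : -(fR * (∏ q ∈ S \ T, q)) ∉ sp p := by rwa [neg_mem_iff]
  have h7 : lg (sy p (-(fR * (∏ q ∈ S \ T, q)))) =
      tp p + mc (fun q : RR => q) p + ∑ q ∈ S \ T, lg (sy p q) := by
    have hsp : (∏ q ∈ S \ T, (fun q : RR => q) q) = ∏ q ∈ S \ T, q := rfl
    rw [lg_neg' hpn.pr hpn.od h6', hpn.mul, lg_mul (sy_sgn hnf) (sy_sgn hnd')]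
    have h8 : lg (sy p (∏ q ∈ S \ T, q)) = ∑ q ∈ S \ T, lg (sy p q) := h4
    rw [h8, hpn.seven (hS.c7 p hp).1 hnf]
    show tp p + (mc (fun q : RR => q) p + _) = _
    ring
  rw [← h7, QC.lg_sy h6, nsq_zero_iff]
  simp only [sub_neg_eq_add]

include hS in
/-- **the criterion** -/
theorem fct_iff : gd (mc fun p : RR => p) (mr fun p : RR => p) S = 0 ↔ Fct (∏ p ∈ S, p) := by
  have hf := hS.fa
  have hsqD := hS.sqf
  have htr := gd_tr hS
  constructor
  · intro hg
    rw [← htr] at hg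
    obtain ⟨T, hTS, ⟨p₀, hp₀⟩, hout, hin⟩ := exists_T hg
    refine ⟨∏ p ∈ T, p, ∏ p ∈ S \ T, p, ?_, ?_, ?_, ?_, ?_⟩
    · rw [mul_comm]
      exact (Finset.prod_sdiff hTS).symm
    · rw [← r4_dvd, map_prod]
      exact Finset.prod_eq_one fun p hp => (hf.pn p (hTS hp)).r4
    · intro h1
      have h2 : p₀ ∣ 1 := by
        rw [← h1]
        exact Finset.dvd_prod_of_mem _ hp₀
      exact (hf.pn p₀ (hTS hp₀)).pr.not_isUnit (isUnit_of_dvd_one h2)
    · intro p hp hpd
      obtain ⟨q, hq, hpq⟩ := (hp.dvd_finsetProd_iff _).1 hpd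
      have hq' := Finset.mem_sdiff.1 hq
      have hqp : Prime q := (hf.pn q hq'.1).pr
      obtain ⟨x, hx⟩ := (val_out hS hTS hq'.1 hq'.2).1 (hout q hq)
      exact ⟨x, hpq.trans hx⟩
    · intro p hp hpd
      obtain ⟨q, hq, hpq⟩ := (hp.dvd_finsetProd_iff _).1 hpd
      obtain ⟨x, hx⟩ := (val_in hS (hTS hq) hq).1 (hin q hq)
      exact ⟨x, hpq.trans hx⟩
  · rintro ⟨d, d', hD, h1, hd1, ho, hi⟩
    rw [← r4_dvd] at h1
    set T := S.filter (fun p => p ∣ d) with hT
    have hTS : T ⊆ S := Finset.filter_subset _ _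
    have hd0 : d ≠ 0 := by
      rintro rfl
      rw [zero_mul] at hD
      exact hsqD.ne_zero hD
    have hpd : ∏ p ∈ T, p ∣ d := by
      refine Finset.prod_dvd_of_coprime (fun p hp q hq hpq => ?_) fun p hp =>
        (Finset.mem_filter.1 hp).2
      exact fa_cop hf (hTS hp) (hTS hq) hpq
    obtain ⟨u, hu⟩ := hpd
    have hdsq : Squarefree d := hsqD.squarefree_of_dvd ⟨d', hD⟩
    have huu : IsUnit u := by
      by_contra hnu
      have hu0 : u ≠ 0 := by
        rintro rfl
        rw [mul_zero] at hu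
        exact hd0 hu
      obtain ⟨ϖ, hirr, hϖ⟩ := WfDvdMonoid.exists_irreducible_factor hnu hu0
      have hϖd : ϖ ∣ d := by rw [hu]; exact hϖ.mul_left _
      have hϖD : ϖ ∣ ∏ p ∈ S, p := by rw [hD]; exact hϖd.mul_right _
      obtain ⟨q, hq, hϖq⟩ := (hirr.prime.dvd_finsetProd_iff _).1 hϖD
      have hass := hirr.prime.associated_of_dvd (hf.pn q hq).pr hϖq
      have hqT : q ∈ T := Finset.mem_filter.2 ⟨hq, hass.symm.dvd.trans hϖd⟩
      have h3 : ϖ * ϖ ∣ d := by
        rw [hu]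
        exact mul_dvd_mul (hass.dvd.trans (Finset.dvd_prod_of_mem _ hqT)) hϖ
      exact hirr.not_isUnit (hdsq _ h3)
    have hrT : r4 (∏ p ∈ T, p) = 1 := by
      rw [map_prod]
      exact Finset.prod_eq_one fun p hp => (hf.pn p (hTS hp)).r4
    have hdT : d = ∏ p ∈ T, p := by
      rcases isUnit_iff.1 huu with h2 | h2
      · rw [hu, h2, mul_one]
      · exfalso
        rw [hu, h2, map_mul, hrT, one_mul, map_neg, map_one] at h1
        revert h1
        decide
    have hd'T : d' = ∏ p ∈ S \ T, p := by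
      apply mul_left_cancel₀ hd0
      rw [← hD, hdT, mul_comm]
      exact (Finset.prod_sdiff hTS).symm
    have hTne : T.Nonempty := by
      rw [Finset.nonempty_iff_ne_empty]
      intro h0
      rw [h0, Finset.prod_empty] at hdT
      exact hd1 hdT
    rw [← htr, gd_zero_iff]
    obtain ⟨p₀, hp₀⟩ := hTne
    refine ⟨fun p => if p ∈ T then 1 else 0, fun p hp => ?_, p₀, hTS hp₀, by
      simp only [if_pos hp₀]
      decide⟩
    by_cases hpT : p ∈ T
    · have hpd : p ∣ d := (Finset.mem_filter.1 hpT).2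
      have hpr : Prime p := (hf.pn p hp).pr
      have h5 := hi p hpr hpd
      rw [hd'T] at h5
      have h6 := (val_in hS hp hpT).2 h5
      simp only [if_pos hpT, mul_one]
      refine Eq.trans ?_ h6
      congr 1
      rw [← Finset.sum_sdiff hTS, Finset.sum_eq_zero (s := T) fun q hq => by
        simp only [if_pos hq]
        rw [show (1 : ZMod 2) + 1 = 0 by decide, mul_zero], add_zero]
      refine Finset.sum_congr rfl fun q hq => ?_
      rw [if_neg (Finset.mem_sdiff.1 hq).2, add_zero, mul_one]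
      rfl
    · have hpr : Prime p := (hf.pn p hp).pr
      have hpd' : p ∣ d' := by
        rw [hd'T]
        exact Finset.dvd_prod_of_mem _ (Finset.mem_sdiff.2 ⟨hp, hpT⟩)
      have h5 := ho p hpr hpd'
      rw [hdT] at h5
      have h6 := (val_out hS hTS hp hpT).2 h5
      simp only [if_neg hpT, mul_zero, zero_add]
      refine Eq.trans ?_ h6
      rw [← Finset.sum_sdiff hTS, Finset.sum_eq_zero (s := S \ T) fun q hq => by
        rw [if_neg (Finset.mem_sdiff.1 hq).2, mul_zero], zero_add]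
      refine Finset.sum_congr rfl fun q hq => ?_
      rw [if_pos hq, mul_one]
      rfl

end

end Pool.Agent.N818.TD
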