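import Pool.Agent.N818.TC.Crit
import Pool.Agent.N818.TD.Card
import Pool.Agent.Y698.SG.Uj
import Pool.Agent.Y655.XT.Shavc
import Pool.Agent.R413.SJ.ShaQ

/-!
# The formula modulo the primes above two, all squarefree `D ≡ 1 mod 4` prime to seven
-/

set_option autoImplicit false
set_option linter.unusedSectionVars false

namespace Pool.Agent.N818.TD

open Pool.Agent.Y698 Pool.Agent.Y698.SG
open NumberField IsDedekindDomain IsCyclotomicExtension.Rat WithZero WeierstrassCurve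
open Pool.Agent.W189.NF Pool.Agent.TH936.CM
open Pool.Agent.H921R2.TatePole Pool.Agent.H82R3.EK
open Pool.Agent.TH841.SH.D (Pt act)
open Pool.Agent.R426.QD (r4 Ev)
open Pool.Agent.N818.TC (A B Rz rz_iff exists_fam gg ch)
open scoped Classical

/-- the prime factors -/
lemma gq_of {D : ℕ} (h7 : ¬ 7 ∣ D) : ∀ q ∈ D.primeFactors, Gq q := fun q hq =>
  ⟨Nat.prime_of_mem_primeFactors hq, by
    rintro rfl
    exact h7 (Nat.dvd_of_mem_primeFactors hq)⟩

lemma inq5 : Inq 5 := ⟨by norm_num, by norm_num, by decide⟩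

/-- the equation is minimal -/
theorem minimal_all {S : Finset ℕ} (hS : ∀ q ∈ S, Gq q) {j : ℕ} (hj : ∏ q ∈ S, q = 1 + 4 * j)
    (v : HeightOneSpectrum (𝓞 ℚ)) : MinimalAt (AX ℚ j) v := by
  have hΔ : v.valuation ℚ (AX ℚ j).Δ = v.valuation ℚ 7 ^ 3 * v.valuation ℚ (1 + 4 * (j : ℚ)) ^ 6 := by
    have e : (AX ℚ j).Δ = -(7 ^ 3 * (1 + 4 * (j : ℚ)) ^ 6) := by
      rw [EX_Δ]
      ring
    rw [e, Valuation.map_neg, map_mul, map_pow, map_pow]
  by_cases hv : (below v : ℕ) = 7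
  · have h7 : v.valuation ℚ 7 = exp (-1) := by
      have := val_q (q := ⟨7, by norm_num⟩) (v := v) (Subtype.ext hv)
      exact_mod_cast this
    rcases val_D' hS hj v with h | h
    · apply minimal_of (k := 3) (by norm_num)
      rw [hΔ, h7, h.1, one_pow, mul_one, exp_cube]
      norm_num
    · obtain ⟨-, q, hq, h2⟩ := h
      exfalso
      rw [hv] at h2
      exact (hS q hq).n7 h2.symm
  · have h7 : v.valuation ℚ 7 = 1 := by
      have := val_one_of v (p := 7) (by norm_num) hv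
      exact_mod_cast this
    rcases val_D' hS hj v with h | h
    · apply minimal_of (k := 0) (by norm_num)
      rw [hΔ, h7, h.1, one_pow, one_pow, mul_one]
      simp
    · apply minimal_of (k := 6) (by norm_num)
      rw [hΔ, h7, h.1, one_pow, one_mul, ← exp_nsmul]
      simp

section

variable {D : ℕ} (hsq : Squarefree D) (h4 : D % 4 = 1) (h7 : ¬ 7 ∣ D) {j : ℕ} (hj : D = 1 + 4 * j)

include hsq hj in
lemma prod_eq : ∏ q ∈ D.primeFactors, q = 1 + 4 * j := by
  rw [Nat.prod_primeFactors_of_squarefree hsq, hj]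

include hsq h4 h7 hj in
/-- **the formula modulo the primes above two** -/
theorem level : ∃ Λ : ℂ → ℂ, Differentiable ℂ Λ ∧
    (∀ s : ℂ, 2 < s.re → Λ s = (AX ℚ j).LSeries s) ∧
      ∀ (Γ : Type) [LinearOrderedCommGroupWithZero Γ] (v : Valuation ℂ Γ), v 2 < 1 →
        v (quoT ℚ j (Λ 1)) ≤ 1 ∧ (v (quoT ℚ j (Λ 1)) = 1 ↔ Rz (A D) (B D)) := by
  have hsq' : Squarefree (D : ℤ) := Int.squarefree_natCast.2 hsq
  have h4' : (D : ℤ) % 4 = 1 := by omega
  have h7' : ¬ (7 : ℤ) ∣ (D : ℤ) := fun h => h7 (by exact_mod_cast h)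
  have hj' : (D : ℤ) = 1 + 4 * (j : ℤ) := by exact_mod_cast hj
  obtain ⟨S, hS, hprod, hE⟩ := exists_fam hsq' h4' h7'
  obtain ⟨F, g1, g2, g3⟩ := Pool.Agent.N818.TC.main hsq' h4' h7' hS hE
  have hrz := rz_iff h4' hprod hE
  obtain ⟨L, Ω, hL⟩ := exists_LD
  have hcard : S.card = ∑ q ∈ D.primeFactors, ee q := by
    have := card_S hsq' h7' hj' hS
    rwa [Int.natAbs_natCast] at this
  have hGq := gq_of h7
  have hpr := prod_eq hsq hj
  have htam := tam_prod hGq hpr
  rw [← hcard] at htam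
  have h2 : ∀ s : ℂ, 2 < s.re → F s = (AX ℚ j).LSeries s := by
    refine lser hGq hpr fun z hz => ?_
    refine (g2 z hz).congr_fun ?_
    intro p
    unfold gg ch
    rw [eps_eq hGq, hpr, Int.natAbs_natCast, hj]
  have hf5 : Fact (Nat.Prime 5) := ⟨by norm_num⟩
  have hM : IsCyclotomicExtension {5} ℚ (CyclotomicField 5 ℚ) := cyc_inst 5
  refine ⟨F, g1, h2, fun Γ _ v hv => ?_⟩
  have hreal : (starRingEnd ℂ) (F 1) = F 1 := conj_val g1 (fun k => (AX ℚ j).LFunction k) h2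
  have hΩ : v Ω ≠ 0 := (v.ne_zero_iff).2 hL.lat.ne
  have h20 : v 2 ≠ 0 := (v.ne_zero_iff).2 two_ne_zero
  have hn : Module.finrank ℚ ℚ = 2 ^ 0 := by rw [Module.finrank_self, pow_zero]
  have hq := v_quoG (CyclotomicField 5 ℚ) ℚ hn inq5 htam hL (F 1) v hv
  rw [pow_zero] at hq
  by_cases hg : Pool.Agent.Y698.SG.gd (mc fun p => p) (mr fun p => p) S = 0
  · have k1 := val_all0 (N := 1) hreal hL (fun Γ _ v hv => by
      rw [pow_one]
      exact (g3 Γ v L Ω hL hv).2 hg) v hv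
    have key : v (quoT ℚ j (F 1)) < 1 := by
      rw [hq]
      exact (div_lt_one₀ (zero_lt_iff.2 (mul_ne_zero (pow_ne_zero _ h20) (pow_ne_zero _ hΩ)))).2 k1
    exact ⟨key.le, iff_of_false key.ne (fun h => hrz.1 h hg)⟩
  · have k1 := val_allD (N := 1) hreal hL (fun Γ _ v hv => by
      rw [pow_one]
      exact (g3 Γ v L Ω hL hv).1 hg) v hv
    have key : v (quoT ℚ j (F 1)) = 1 := by
      rw [hq, k1]
      exact div_self (mul_ne_zero (pow_ne_zero _ h20) (pow_ne_zero _ hΩ))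
    exact ⟨key.le, iff_of_true key (hrz.2 hg)⟩

end

end Pool.Agent.N818.TD
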