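import Pool.Agent.Y698.SG.Az

/-!
# The traces of Frobenius of the quadratic twists, all prime factors different from seven
-/

set_option autoImplicit false
set_option linter.unusedSectionVars false

namespace Pool.Agent.N818.TD

open Pool.Agent.Y698 Pool.Agent.Y698.SG
open W165.CE (pw pw_eq pw_luc exists_roots')

/-- a prime number different from seven -/
structure Gq (q : ℕ) : Prop where
  pr : q.Prime
  n7 : q ≠ 7

lemma eps_eq {S : Finset ℕ} (hS : ∀ q ∈ S, Gq q) (m : ℤ) :
    ∏ q ∈ S, qch q m = ((jacobiSym m (∏ q ∈ S, q) : ℤ) : ℂ) := by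
  classical
  induction S using Finset.induction_on with
  | empty => simp
  | insert q S hq ih =>
    have ih' := ih fun p hp => hS p (Finset.mem_insert_of_mem hp)
    rw [Finset.prod_insert hq, Finset.prod_insert hq, ih', jacobiSym.mul_right']
    · push_cast
      rfl
    · exact (hS q (Finset.mem_insert_self _ _)).pr.ne_zero
    · exact Finset.prod_ne_zero_iff.2 fun p hp => (hS p (Finset.mem_insert_of_mem hp)).pr.ne_zero

lemma not_dvd_prod {S : Finset ℕ} (hS : ∀ q ∈ S, Gq q) {p : ℕ} (hp : p.Prime) (hpS : p ∉ S) :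
    ¬ p ∣ ∏ q ∈ S, q := by
  intro h
  obtain ⟨q, hq, hd⟩ := (Prime.dvd_finsetProd_iff hp.prime _).1 h
  exact hpS (((Nat.prime_dvd_prime_iff_eq hp (hS q hq).pr).1 hd) ▸ hq)

/-- the trace of Frobenius of the twist over a finite field -/
theorem trace_tw (k : Type) [Field k] [Finite k] {p f : ℕ} (hp : p.Prime) (hp7 : p ≠ 7)
    (hf : f ≠ 0) (hk : Nat.card k = p ^ f) {S : Finset ℕ} (hS : ∀ q ∈ S, Gq q) (hpS : p ∉ S)
    {j : ℕ} (hj : ∏ q ∈ S, q = 1 + 4 * j) :
    (((Nat.card k : ℤ) - Nat.card (AP (EX k (j : k))) : ℤ) : ℂ) =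
      (∏ q ∈ S, qch q p) ^ f * pw (bc p) (ec p) f := by
  classical
  have : Fact p.Prime := ⟨hp⟩
  let _ : Fintype k := Fintype.ofFinite k
  have hk' : Fintype.card k = p ^ f := by rw [← Nat.card_eq_fintype_card, hk]
  have hchar : CharP k p := by
    rw [CharP.charP_iff_prime_eq_zero hp]
    have h1 : ((Fintype.card k : ℕ) : k) = 0 := Nat.cast_card_eq_zero k
    rw [hk'] at h1
    push_cast at h1
    exact (pow_eq_zero_iff hf).1 h1
  have heps := eps_eq hS p
  have hsq : (∏ q ∈ S, qch q p) ^ 2 = 1 := by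
    refine qprod_sq (fun q hq => (hS q hq).pr) fun q hq hd => ?_
    have h1 : q ∣ p := by exact_mod_cast hd
    exact hpS (((Nat.prime_dvd_prime_iff_eq (hS q hq).pr hp).1 h1) ▸ hq)
  by_cases hp2 : p = 2
  · subst hp2
    have h20 : (2 : k) = 0 := by
      have := CharP.cast_eq_zero k 2
      exact_mod_cast this
    have ht := trace_fin k hp hp7 hf hk
    have hodd : Odd (1 + 4 * j) := ⟨2 * j, by ring⟩
    rcases Nat.even_or_odd j with ⟨m, hm⟩ | ⟨m, hm⟩
    · have h0 : (j : k) = 0 := by
        rw [hm]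
        push_cast
        linear_combination (m : k) * h20
      have he : ∏ q ∈ S, qch q (2 : ℕ) = 1 := by
        rw [heps, hj]
        have h1 : jacobiSym ((2 : ℕ) : ℤ) (1 + 4 * j) = 1 := by
          push_cast
          rw [jacobiSym.at_two hodd, ZMod.χ₈_nat_eq_if_mod_eight]
          have h3 : (1 + 4 * j) % 8 = 1 := by omega
          have h4 : (1 + 4 * j) % 2 = 1 := by omega
          rw [if_neg (by omega), if_pos (Or.inl h3)]
        rw [h1, Int.cast_one]
      rw [h0, EX_zero, he, one_pow, one_mul]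
      exact ht
    · have h0 : (j : k) = 1 := by
        rw [hm]
        push_cast
        linear_combination (m : k) * h20
      have he : ∏ q ∈ S, qch q (2 : ℕ) = -1 := by
        rw [heps, hj]
        have h1 : jacobiSym ((2 : ℕ) : ℤ) (1 + 4 * j) = -1 := by
          push_cast
          rw [jacobiSym.at_two hodd, ZMod.χ₈_nat_eq_if_mod_eight]
          have h3 : (1 + 4 * j) % 8 = 5 := by omega
          rw [if_neg (by omega), if_neg (by omega)]
        rw [h1, Int.cast_neg, Int.cast_one]
      rw [he, h0]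
      rw [card_AP] at ht
      set c : k → k := fun x => x ^ 3 + 1 with hc
      have e1 : Nat.card (AP (EX k 1)) = Nat.card (AC c) := by
        apply Nat.card_congr
        apply Equiv.subtypeEquivRight
        rintro ⟨x, y⟩
        rw [WeierstrassCurve.Affine.equation_iff]
        unfold EX
        simp only [hc]
        constructor
        · intro h
          linear_combination h + (-2 * x ^ 2 - 25 * x - 63) * h20
        · intro h
          linear_combination h - (-2 * x ^ 2 - 25 * x - 63) * h20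
      have e2 : Nat.card (Af k) = Nat.card (AC fun x => c x + x ^ 2) := by
        apply Nat.card_congr
        apply Equiv.subtypeEquivRight
        rintro ⟨x, y⟩
        simp only [hc]
        constructor
        · intro h
          linear_combination h + (-x ^ 2 - x - 1) * h20
        · intro h
          linear_combination h - (-x ^ 2 - x - 1) * h20
      rw [e1]
      by_cases hev : Even f
      · obtain ⟨ω, hω⟩ := omega_even h20 hk' hev hf
        rw [hev.neg_one_pow, one_mul, ← ht, e2, AC_iso h20 hω c]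
      · have h3 := AC_sum h20 (omega_odd h20 hk' hev) c
        rw [(Nat.not_even_iff_odd.1 hev).neg_one_pow, ← ht, e2]
        rw [← Nat.card_eq_fintype_card] at h3
        have h4 : (Nat.card (AC c) : ℤ) + Nat.card (AC fun x => c x + x ^ 2) =
            2 * Nat.card k := by exact_mod_cast h3
        have h5 : (Nat.card k : ℤ) - Nat.card (AC c) =
            -((Nat.card k : ℤ) - Nat.card (AC fun x => c x + x ^ 2)) := by linarith
        rw [h5]
        push_cast
        ring
  · have h2 : (2 : k) ≠ 0 := by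
      intro h0
      have h3 : ((2 : ℕ) : k) = 0 := by exact_mod_cast h0
      rw [CharP.cast_eq_zero_iff k p] at h3
      exact hp2 ((Nat.prime_dvd_prime_iff_eq hp Nat.prime_two).1 h3)
    have hpD : ¬ (p : ℤ) ∣ (1 + 4 * (j : ℤ)) := by
      intro h
      apply not_dvd_prod hS hp hpS
      rw [hj]
      exact_mod_cast h
    have hpp : Prime (p : ℤ) := Nat.prime_iff_prime_int.1 hp
    have hcast : ((j : ℕ) : k) = ((j : ℤ) : k) := (Int.cast_natCast j).symm
    rw [hcast, card_AP_EX k h2 (j : ℤ)]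
    let _ : Algebra (ZMod p) k := ZMod.algebra _ p
    have hext := W165.CE.points_ext hp2 (-35 * (1 + 4 * (j : ℤ)) ^ 2) (-98 * (1 + 4 * (j : ℤ)) ^ 3) (by
      intro hdv
      have h3 : (4 * (-35 * (1 + 4 * (j : ℤ)) ^ 2) ^ 3 + 27 * (-98 * (1 + 4 * (j : ℤ)) ^ 3) ^ 2) =
          (1 + 4 * (j : ℤ)) ^ 6 * (2 ^ 8 * 7 ^ 3) := by ring
      rw [h3] at hdv
      rcases hpp.dvd_or_dvd hdv with h4 | h4
      · exact hpD (hpp.dvd_of_dvd_pow h4)
      · have h4 : p ∣ 2 ^ 8 * 7 ^ 3 := by exact_mod_cast h4
        rcases (Nat.Prime.dvd_mul hp).1 h4 with h5 | h5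
        · exact hp2 ((Nat.prime_dvd_prime_iff_eq hp Nat.prime_two).1 (hp.dvd_of_dvd_pow h5))
        · exact hp7 ((Nat.prime_dvd_prime_iff_eq hp (by norm_num)).1 (hp.dvd_of_dvd_pow h5)))
      (k := k)
    have hfr : Module.finrank (ZMod p) k = f := by
      have h5 := Module.card_eq_pow_finrank (K := ZMod p) (V := k)
      rw [ZMod.card, hk'] at h5
      exact (Nat.pow_right_injective hp.two_le h5).symm
    rw [hfr, ← Nat.card_eq_fintype_card] at hext
    rw [hext, ← pw_luc]
    have hF : ringChar (ZMod p) ≠ 2 := by rwa [ZMod.ringChar_zmod_n]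
    have hD0 : ((1 + 4 * (j : ℤ) : ℤ) : ZMod p) ≠ 0 := by
      intro h
      exact hpD ((ZMod.intCast_zmod_eq_zero_iff_dvd _ _).1 h)
    have htw := count_tw hF ((-35 : ℤ) : ZMod p) ((-98 : ℤ) : ZMod p) hD0
    rw [ZMod.card] at htw
    have e1 : ((p : ℤ) - Nat.card {x : ZMod p × ZMod p // x.2 ^ 2 = x.1 ^ 3 +
        ((-35 * (1 + 4 * (j : ℤ)) ^ 2 : ℤ) : ZMod p) * x.1 +
        ((-98 * (1 + 4 * (j : ℤ)) ^ 3 : ℤ) : ZMod p)}) =
        quadraticChar (ZMod p) ((1 + 4 * (j : ℤ) : ℤ) : ZMod p) *
          ((p : ℤ) - Nat.card (Aff (ZMod p))) := by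
      unfold Aff
      rw [← htw]
      push_cast
      rfl
    rw [e1]
    have hqc : quadraticChar (ZMod p) ((1 + 4 * (j : ℤ) : ℤ) : ZMod p) =
        jacobiSym (p : ℤ) (1 + 4 * j) := by
      have h3 : quadraticChar (ZMod p) ((1 + 4 * (j : ℤ) : ℤ) : ZMod p) =
          legendreSym p (1 + 4 * (j : ℤ)) := rfl
      rw [h3, jacobiSym.legendreSym.to_jacobiSym]
      have h4 : Odd p := hp.odd_of_ne_two hp2
      have h5 := jacobiSym.quadratic_reciprocity_one_mod_four (a := 1 + 4 * j) (b := p)
        (by omega) h4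
      rw [← h5]
      push_cast
      rfl
    rw [hqc]
    push_cast
    have hb := bc_odd hp hp2 hp7
    push_cast at hb
    rw [← hb]
    have he : ∏ q ∈ S, qch q (p : ℕ) = ((jacobiSym (p : ℤ) (1 + 4 * j) : ℤ) : ℂ) := by
      rw [heps, hj]
    rw [← he, pw_twist _ _ _ hsq]
    unfold ec
    rw [if_neg hp7]

end Pool.Agent.N818.TD
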